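import Pool.Agent.helper17.Check

/-!
The alternating vanishing of Hodge integrals over hyperelliptic curves with any number of
Hodge classes.

The rational Chow ring of the moduli space of stable rational curves with `2g+2` marked points is
presented by the boundary classes `bd S`, where the marking `j` is the root and `S` runs over
the subsets of the other `2g+1` markings (`ChowRing`). The class `psi` is the cotangent class at
the root marking `j`. A degree map is normalised on the zero-dimensional strata (`IsDegree`).
The Hodge classes are characterised by homogeneity and by their degrees on all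
boundary strata (`IsHodge`): the Hodge bundle splits over the vertices of the stratum, its rank
at a vertex is the genus of the corresponding component, and the first Chern class has degree
one half on the space of rational curves with four markings.
-/

open Finset

namespace Pool.Agent.Results.MP_9ba4df_ag.AlternatingVanishing

open Pool.Agent.helper17

/-- For every `g > 0`: a degree map and Hodge classes exist, and for all of them the alternating sum of
the Hodge integrals `D_((l, i), 2g+2)` over `i = 0, ..., g`, with weights `(-2)^i`, vanishes as
soon as `|l| ≤ g - 1`. -/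
theorem result (g : ℕ) (hg : 0 < g) :
    (∃ (deg : ChowRing (Fin (2 * g + 1)) →ₗ[ℚ] ℚ) (lam : ℕ → ChowRing (Fin (2 * g + 1))),
      IsDegree deg ∧ IsHodge deg lam) ∧
    ∀ (deg : ChowRing (Fin (2 * g + 1)) →ₗ[ℚ] ℚ) (lam : ℕ → ChowRing (Fin (2 * g + 1))),
      IsDegree deg → IsHodge deg lam → ∀ (n : ℕ) (l : Fin n → ℕ), ∑ t, l t ≤ g - 1 →
        ∑ i ∈ range (g + 1), (-2 : ℚ) ^ i *
          hodgeIntegral g deg lam (Fin.snoc l i : Fin (n + 1) → ℕ) = 0 := by
  have hc : Fintype.card (Fin (2 * g + 1)) = 2 * g + 1 := Fintype.card_fin _
  refine ⟨exists_isHodge (by omega), ?_⟩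
  intro deg lam _ hlam n l hl
  have h := alternating_vanishing hlam hc hg l hl
  have h2 : ∑ i ∈ range (g + 1), (-2 : ℚ) ^ i *
      hodgeIntegral g deg lam (Fin.snoc l i : Fin (n + 1) → ℕ)
      = 1 / 2 * ∑ i ∈ range (g + 1), (-2 : ℚ) ^ i *
      deg (psi (Fin (2 * g + 1)) ^ (2 * g - 1 - ((∑ t, l t) + i)) *
        ((∏ t, lam (l t)) * lam i)) := by
    rw [mul_sum]
    apply sum_congr rfl
    intro i _
    unfold hodgeIntegral
    rw [Fin.sum_univ_castSucc, Fin.prod_univ_castSucc]
    simp only [Fin.snoc_castSucc, Fin.snoc_last]
    ring
  rw [h2, h, mul_zero]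

end Pool.Agent.Results.MP_9ba4df_ag.AlternatingVanishing
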